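import Mathlib
import Pool.Agent.Helper56.DivTwo.Defs

/-!
MP_69499c_nt, module DT-NUM: numeric enclosure of the limit `L`.
-/

namespace Pool.Agent.Helper15.DivTwoNum

open Pool.Agent.Helper56.DivTwo

theorem th_ge (j : ℕ) : 1 ≤ th j := by
  unfold th aj
  rw [le_div_iff₀ (by positivity), one_mul]
  have h := Nat.pow_log_le_self 2 (x := 3 ^ j) (by positivity)
  exact_mod_cast h

theorem th_lt (j : ℕ) : th j < 2 := by
  unfold th aj
  rw [div_lt_iff₀ (by positivity)]
  have h := Nat.lt_pow_succ_log_self (b := 2) (by norm_num) (3 ^ j)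
  rw [pow_succ, mul_comm] at h
  exact_mod_cast h

theorem w_nonneg (j : ℕ) : 0 ≤ w j := by
  have h1 := th_ge j
  have h2 := th_lt j
  unfold w
  split_ifs
  · rcases max_cases (0 : ℝ) (th j / 4 - 1 / 3) with h | h <;>
    rcases max_cases (0 : ℝ) (min (1 / 10) (th j / 16) - max (1 / 12) (th j / 20)) with k | k <;>
    rcases min_cases (1 / 10 : ℝ) (th j / 16) with l | l <;>
    rcases max_cases (1 / 12 : ℝ) (th j / 20) with m | m <;> linarith
  · rcases max_cases (1 / 3 : ℝ) (th j / 4) with h | h <;> linarith

theorem w_le (j : ℕ) : w j ≤ 1 := by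
  have h1 := th_ge j
  have h2 := th_lt j
  unfold w
  split_ifs
  · rcases max_cases (0 : ℝ) (th j / 4 - 1 / 3) with h | h <;>
    rcases max_cases (0 : ℝ) (min (1 / 10) (th j / 16) - max (1 / 12) (th j / 20)) with k | k <;>
    linarith
  · rcases max_cases (1 / 3 : ℝ) (th j / 4) with h | h <;> linarith

theorem aj_eq {j a : ℕ} (h1 : 2 ^ a ≤ 3 ^ j) (h2 : 3 ^ j < 2 ^ (a + 1)) : aj j = a := by
  unfold aj
  exact (Nat.log_eq_iff (Or.inr ⟨by norm_num, by positivity⟩)).2 ⟨h1, h2⟩

theorem w_0 : w 0 = 1 / 1 := by
  have ha : aj 0 = 0 := aj_eq (by norm_num) (by norm_num)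
  have ht : th 0 = 1 / 1 := by
    unfold th; rw [ha]; norm_num
  unfold w
  rw [ht, ha]
  rw [if_pos (by decide)]
  norm_num [max_def, min_def]

theorem w_1 : w 1 = 5 / 8 := by
  have ha : aj 1 = 1 := aj_eq (by norm_num) (by norm_num)
  have ht : th 1 = 3 / 2 := by
    unfold th; rw [ha]; norm_num
  unfold w
  rw [ht, ha]
  rw [if_neg (by decide)]
  norm_num [max_def, min_def]

theorem w_2 : w 2 = 7 / 24 := by
  have ha : aj 2 = 3 := aj_eq (by norm_num) (by norm_num)
  have ht : th 2 = 9 / 8 := by
    unfold th; rw [ha]; norm_num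
  unfold w
  rw [ht, ha]
  rw [if_neg (by decide)]
  norm_num [max_def, min_def]

theorem w_3 : w 3 = 37 / 96 := by
  have ha : aj 3 = 4 := aj_eq (by norm_num) (by norm_num)
  have ht : th 3 = 27 / 16 := by
    unfold th; rw [ha]; norm_num
  unfold w
  rw [ht, ha]
  rw [if_pos (by decide)]
  norm_num [max_def, min_def]

theorem w_4 : w 4 = 47 / 64 := by
  have ha : aj 4 = 6 := aj_eq (by norm_num) (by norm_num)
  have ht : th 4 = 81 / 64 := by
    unfold th; rw [ha]; norm_num
  unfold w
  rw [ht, ha]
  rw [if_pos (by decide)]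
  norm_num [max_def, min_def]

theorem w_5 : w 5 = 473 / 512 := by
  have ha : aj 5 = 7 := aj_eq (by norm_num) (by norm_num)
  have ht : th 5 = 243 / 128 := by
    unfold th; rw [ha]; norm_num
  unfold w
  rw [ht, ha]
  rw [if_neg (by decide)]
  norm_num [max_def, min_def]

theorem w_6 : w 6 = 1163 / 2048 := by
  have ha : aj 6 = 9 := aj_eq (by norm_num) (by norm_num)
  have ht : th 6 = 729 / 512 := by
    unfold th; rw [ha]; norm_num
  unfold w
  rw [ht, ha]
  rw [if_neg (by decide)]
  norm_num [max_def, min_def]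

theorem w_7 : w 7 = 1441 / 6144 := by
  have ha : aj 7 = 11 := aj_eq (by norm_num) (by norm_num)
  have ht : th 7 = 2187 / 2048 := by
    unfold th; rw [ha]; norm_num
  unfold w
  rw [ht, ha]
  rw [if_neg (by decide)]
  norm_num [max_def, min_def]

theorem w_8 : w 8 = 36753 / 81920 := by
  have ha : aj 8 = 12 := aj_eq (by norm_num) (by norm_num)
  have ht : th 8 = 6561 / 4096 := by
    unfold th; rw [ha]; norm_num
  unfold w
  rw [ht, ha]
  rw [if_pos (by decide)]
  norm_num [max_def, min_def]

theorem w_9 : w 9 = 13085 / 16384 := by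
  have ha : aj 9 = 14 := aj_eq (by norm_num) (by norm_num)
  have ht : th 9 = 19683 / 16384 := by
    unfold th; rw [ha]; norm_num
  unfold w
  rw [ht, ha]
  rw [if_pos (by decide)]
  norm_num [max_def, min_def]

theorem w_10 : w 10 = 111611 / 131072 := by
  have ha : aj 10 = 15 := aj_eq (by norm_num) (by norm_num)
  have ht : th 10 = 59049 / 32768 := by
    unfold th; rw [ha]; norm_num
  unfold w
  rw [ht, ha]
  rw [if_neg (by decide)]
  norm_num [max_def, min_def]

theorem w_11 : w 11 = 269297 / 524288 := by
  have ha : aj 11 = 17 := aj_eq (by norm_num) (by norm_num)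
  have ht : th 11 = 177147 / 131072 := by
    unfold th; rw [ha]; norm_num
  unfold w
  rw [ht, ha]
  rw [if_neg (by decide)]
  norm_num [max_def, min_def]

theorem w_12 : w 12 = 283603 / 1572864 := by
  have ha : aj 12 = 19 := aj_eq (by norm_num) (by norm_num)
  have ht : th 12 = 531441 / 524288 := by
    unfold th; rw [ha]; norm_num
  unfold w
  rw [ht, ha]
  rw [if_neg (by decide)]
  norm_num [max_def, min_def]

theorem w_13 : w 13 = 8633929 / 16777216 := by
  have ha : aj 13 = 20 := aj_eq (by norm_num) (by norm_num)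
  have ht : th 13 = 1594323 / 1048576 := by
    unfold th; rw [ha]; norm_num
  unfold w
  rw [ht, ha]
  rw [if_pos (by decide)]
  norm_num [max_def, min_def]

theorem w_14 : w 14 = 3605639 / 4194304 := by
  have ha : aj 14 = 22 := aj_eq (by norm_num) (by norm_num)
  have ht : th 14 = 4782969 / 4194304 := by
    unfold th; rw [ha]; norm_num
  unfold w
  rw [ht, ha]
  rw [if_pos (by decide)]
  norm_num [max_def, min_def]

theorem w_15 : w 15 = 26269505 / 33554432 := by
  have ha : aj 15 = 23 := aj_eq (by norm_num) (by norm_num)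
  have ht : th 15 = 14348907 / 8388608 := by
    unfold th; rw [ha]; norm_num
  unfold w
  rw [ht, ha]
  rw [if_neg (by decide)]
  norm_num [max_def, min_def]

theorem w_16 : w 16 = 45254083 / 100663296 := by
  have ha : aj 16 = 25 := aj_eq (by norm_num) (by norm_num)
  have ht : th 16 = 43046721 / 33554432 := by
    unfold th; rw [ha]; norm_num
  unfold w
  rw [ht, ha]
  rw [if_neg (by decide)]
  norm_num [max_def, min_def]

theorem w_17 : w 17 = 88434637 / 402653184 := by
  have ha : aj 17 = 26 := aj_eq (by norm_num) (by norm_num)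
  have ht : th 17 = 129140163 / 67108864 := by
    unfold th; rw [ha]; norm_num
  unfold w
  rw [ht, ha]
  rw [if_pos (by decide)]
  norm_num [max_def, min_def]

theorem w_18 : w 18 = 2479726411 / 4294967296 := by
  have ha : aj 18 = 28 := aj_eq (by norm_num) (by norm_num)
  have ht : th 18 = 387420489 / 268435456 := by
    unfold th; rw [ha]; norm_num
  unfold w
  rw [ht, ha]
  rw [if_pos (by decide)]
  norm_num [max_def, min_def]

theorem w_19 : w 19 = 985222181 / 1073741824 := by
  have ha : aj 19 = 30 := aj_eq (by norm_num) (by norm_num)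
  have ht : th 19 = 1162261467 / 1073741824 := by
    unfold th; rw [ha]; norm_num
  unfold w
  rw [ht, ha]
  rw [if_pos (by decide)]
  norm_num [max_def, min_def]

theorem w_20 : w 20 = 6165385907 / 8589934592 := by
  have ha : aj 20 = 31 := aj_eq (by norm_num) (by norm_num)
  have ht : th 20 = 3486784401 / 2147483648 := by
    unfold th; rw [ha]; norm_num
  unfold w
  rw [ht, ha]
  rw [if_neg (by decide)]
  norm_num [max_def, min_def]

theorem w_21 : w 21 = 9906223129 / 25769803776 := by
  have ha : aj 21 = 33 := aj_eq (by norm_num) (by norm_num)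
  have ht : th 21 = 10460353203 / 8589934592 := by
    unfold th; rw [ha]; norm_num
  unfold w
  rw [ht, ha]
  rw [if_neg (by decide)]
  norm_num [max_def, min_def]

theorem w_22 : w 22 = 148451599859 / 515396075520 := by
  have ha : aj 22 = 34 := aj_eq (by norm_num) (by norm_num)
  have ht : th 22 = 31381059609 / 17179869184 := by
    unfold th; rw [ha]; norm_num
  unfold w
  rw [ht, ha]
  rw [if_pos (by decide)]
  norm_num [max_def, min_def]

theorem w_23 : w 23 = 700284023857 / 1099511627776 := by
  have ha : aj 23 = 36 := aj_eq (by norm_num) (by norm_num)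
  have ht : th 23 = 94143178827 / 68719476736 := by
    unfold th; rw [ha]; norm_num
  unfold w
  rw [ht, ha]
  rw [if_pos (by decide)]
  norm_num [max_def, min_def]

theorem w_24 : w 24 = 267326277407 / 274877906944 := by
  have ha : aj 24 = 38 := aj_eq (by norm_num) (by norm_num)
  have ht : th 24 = 282429536481 / 274877906944 := by
    unfold th; rw [ha]; norm_num
  unfold w
  rw [ht, ha]
  rw [if_pos (by decide)]
  norm_num [max_def, min_def]

theorem w_25 : w 25 = 1442354200553 / 2199023255552 := by
  have ha : aj 25 = 39 := aj_eq (by norm_num) (by norm_num)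
  have ht : th 25 = 847288609443 / 549755813888 := by
    unfold th; rw [ha]; norm_num
  unfold w
  rw [ht, ha]
  rw [if_neg (by decide)]
  norm_num [max_def, min_def]

theorem w_26 : w 26 = 2128039346107 / 6597069766656 := by
  have ha : aj 26 = 41 := aj_eq (by norm_num) (by norm_num)
  have ht : th 26 = 2541865828329 / 2199023255552 := by
    unfold th; rw [ha]; norm_num
  unfold w
  rw [ht, ha]
  rw [if_neg (by decide)]
  norm_num [max_def, min_def]

theorem w_27 : w 27 = 46570638837161 / 131941395333120 := by
  have ha : aj 27 = 42 := aj_eq (by norm_num) (by norm_num)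
  have ht : th 27 = 7625597484987 / 4398046511104 := by
    unfold th; rw [ha]; norm_num
  unfold w
  rw [ht, ha]
  rw [if_pos (by decide)]
  norm_num [max_def, min_def]

theorem w_28 : w 28 = 12307579633871 / 17592186044416 := by
  have ha : aj 28 = 44 := aj_eq (by norm_num) (by norm_num)
  have ht : th 28 = 22876792454961 / 17592186044416 := by
    unfold th; rw [ha]; norm_num
  unfold w
  rw [ht, ha]
  rw [if_pos (by decide)]
  norm_num [max_def, min_def]

theorem w_29 : w 29 = 135522387916985 / 140737488355328 := by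
  have ha : aj 29 = 45 := aj_eq (by norm_num) (by norm_num)
  have ht : th 29 = 68630377364883 / 35184372088832 := by
    unfold th; rw [ha]; norm_num
  unfold w
  rw [ht, ha]
  rw [if_neg (by decide)]
  norm_num [max_def, min_def]

theorem w_30 : w 30 = 336198419573291 / 562949953421312 := by
  have ha : aj 30 = 47 := aj_eq (by norm_num) (by norm_num)
  have ht : th 30 = 205891132094649 / 140737488355328 := by
    unfold th; rw [ha]; norm_num
  unfold w
  rw [ht, ha]
  rw [if_neg (by decide)]
  norm_num [max_def, min_def]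

theorem w_31 : w 31 = 445645305298561 / 1688849860263936 := by
  have ha : aj 31 = 49 := aj_eq (by norm_num) (by norm_num)
  have ht : th 31 = 617673396283947 / 562949953421312 := by
    unfold th; rw [ha]; norm_num
  unfold w
  rw [ht, ha]
  rw [if_neg (by decide)]
  norm_num [max_def, min_def]

theorem w_32 : w 32 = 9359394093028977 / 22517998136852480 := by
  have ha : aj 32 = 50 := aj_eq (by norm_num) (by norm_num)
  have ht : th 32 = 1853020188851841 / 1125899906842624 := by
    unfold th; rw [ha]; norm_num
  unfold w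
  rw [ht, ha]
  rw [if_pos (by decide)]
  norm_num [max_def, min_def]

theorem w_33 : w 33 = 3448138688185469 / 4503599627370496 := by
  have ha : aj 33 = 52 := aj_eq (by norm_num) (by norm_num)
  have ht : th 33 = 5559060566555523 / 4503599627370496 := by
    unfold th; rw [ha]; norm_num
  unfold w
  rw [ht, ha]
  rw [if_pos (by decide)]
  norm_num [max_def, min_def]

theorem w_34 : w 34 = 32017146589517723 / 36028797018963968 := by
  have ha : aj 34 = 53 := aj_eq (by norm_num) (by norm_num)
  have ht : th 34 = 16677181699666569 / 9007199254740992 := by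
    unfold th; rw [ha]; norm_num
  unfold w
  rw [ht, ha]
  rw [if_neg (by decide)]
  norm_num [max_def, min_def]

theorem w_35 : w 35 = 78037041259071185 / 144115188075855872 := by
  have ha : aj 35 = 55 := aj_eq (by norm_num) (by norm_num)
  have ht : th 35 = 50031545098999707 / 36028797018963968 := by
    unfold th; rw [ha]; norm_num
  unfold w
  rw [ht, ha]
  rw [if_neg (by decide)]
  norm_num [max_def, min_def]

theorem w_36 : w 36 = 89995935701357683 / 432345564227567616 := by
  have ha : aj 36 = 57 := aj_eq (by norm_num) (by norm_num)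
  have ht : th 36 = 150094635296999121 / 144115188075855872 := by
    unfold th; rw [ha]; norm_num
  unfold w
  rw [ht, ha]
  rw [if_neg (by decide)]
  norm_num [max_def, min_def]

theorem hasSum_tail (N : ℕ) :
    HasSum (fun j : ℕ => (1 : ℝ) / 3 ^ (j + N + 1)) (1 / (2 * 3 ^ N)) := by
  have h := (hasSum_geometric_of_lt_one (r := (1 / 3 : ℝ)) (by norm_num) (by norm_num)).mul_left
    (1 / 3 ^ (N + 1) : ℝ)
  have e : (1 / 3 ^ (N + 1) : ℝ) * (1 - 1 / 3)⁻¹ = 1 / (2 * 3 ^ N) := by
    rw [pow_succ]; field_simp; norm_num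
  rw [e] at h
  have hf : (fun j : ℕ => (1 : ℝ) / 3 ^ (j + N + 1)) =
      fun i : ℕ => (1 / 3 ^ (N + 1) : ℝ) * (1 / 3) ^ i := by
    funext j
    rw [one_div_pow, one_div_mul_one_div, ← pow_add]
    congr 2
    ring
  rw [hf]
  exact h

theorem summable_w (N : ℕ) : Summable (fun j : ℕ => w (j + N) / 3 ^ (j + N + 1)) := by
  refine Summable.of_nonneg_of_le (fun j => ?_) (fun j => ?_) (hasSum_tail N).summable
  · exact div_nonneg (w_nonneg _) (by positivity)
  · exact div_le_div_of_nonneg_right (w_le _) (by positivity)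

theorem L_split (N : ℕ) : L = 1 / 4 + (∑ j ∈ Finset.range N, w j / 3 ^ (j + 1))
    + ∑' j : ℕ, w (j + N) / 3 ^ (j + N + 1) := by
  have hs : Summable (fun j : ℕ => w j / 3 ^ (j + 1)) := by
    simpa using summable_w 0
  unfold L
  rw [← hs.sum_add_tsum_nat_add N, add_assoc]

theorem tail_nonneg (N : ℕ) : 0 ≤ ∑' j : ℕ, w (j + N) / 3 ^ (j + N + 1) :=
  tsum_nonneg fun j => div_nonneg (w_nonneg _) (by positivity)

theorem tail_le (N : ℕ) : ∑' j : ℕ, w (j + N) / 3 ^ (j + N + 1) ≤ 1 / (2 * 3 ^ N) := by
  rw [← (hasSum_tail N).tsum_eq]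
  refine Summable.tsum_le_tsum (fun j => ?_) (summable_w N) (hasSum_tail N).summable
  exact div_le_div_of_nonneg_right (w_le _) (by positivity)

theorem partial_sum : (∑ j ∈ Finset.range 37, w j / 3 ^ (j + 1)) =
    5146388282051841157371631350847963 / 12167390584689763275970647360012288 := by
  simp only [Finset.sum_range_succ, Finset.sum_range_zero,
    w_0, w_1, w_2, w_3, w_4, w_5, w_6, w_7, w_8, w_9, w_10, w_11, w_12, w_13, w_14, w_15, 
    w_16, w_17, w_18, w_19, w_20, w_21, w_22, w_23, w_24, w_25, w_26, w_27, w_28, w_29, w_30, 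
    w_31, w_32, w_33, w_34, w_35, w_36]
  norm_num

/-- The enclosure of the limit with seventeen digits. -/
theorem L_bounds : 0.67296565119948934 < L ∧ L < 0.67296565119948935 := by
  have h := L_split 37
  have h1 := tail_nonneg 37
  have h2 := tail_le 37
  rw [partial_sum] at h
  constructor
  · rw [h]
    refine lt_of_lt_of_le ?_ (le_add_of_nonneg_right h1)
    norm_num
  · rw [h]
    refine lt_of_le_of_lt (add_le_add_right h2 _) ?_
    norm_num

end Pool.Agent.Helper15.DivTwoNum
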